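import Pool.Agent.Helper2_FTU.SHF

/-!
# Row SCA of squad FTU (MP_8cfbae_mp): scaling of the position
-/

set_option autoImplicit false

open MeasureTheory Complex ProbabilityTheory

namespace Pool.Agent.FTU.H2

open Pool.Agent.Helper49_Pauli
open Pool.Agent.Helper61_Pauli
open Pool.Agent.MBX
open Pool.Agent.Loc (γn PB)

/-- scaling of the position in the integral -/
theorem II_scale {ι : Type} [Fintype ι] (F : (ι → ℝ) → X3 → ℝ) {c : ℝ} (hc : 0 < c) :
    II (fun y x => F y (c • x)) = (c ^ 3)⁻¹ * II F := by
  have hemb : MeasurableEmbedding (Prod.map (id : (ι → ℝ) → (ι → ℝ)) (fun x : X3 => c • x)) := by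
    have h1 := ((Homeomorph.refl (ι → ℝ)).prodCongr
      (Homeomorph.smulOfNeZero c hc.ne' : X3 ≃ₜ X3)).measurableEmbedding
    exact h1
  have hmap : Measure.map (Prod.map (id : (ι → ℝ) → (ι → ℝ)) (fun x : X3 => c • x))
      ((γn ι).prod volume) = ENNReal.ofReal ((c ^ 3)⁻¹) • (γn ι).prod (volume : Measure X3) := by
    have h1 := Measure.map_prod_map (γn ι) (volume : Measure X3) (measurable_id)
      (measurable_const_smul c : Measurable fun x : X3 => c • x)
    rw [← h1, Measure.map_id, Measure.map_addHaar_smul (volume : Measure X3) hc.ne',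
      Measure.prod_smul_right]
    congr 2
    rw [abs_of_pos (by positivity)]
    simp
  unfold II
  have h2 := hemb.integral_map (μ := (γn ι).prod volume) (fun z : (ι → ℝ) × X3 => F z.1 z.2)
  rw [hmap, integral_smul_measure, ENNReal.toReal_ofReal (by positivity), smul_eq_mul] at h2
  exact h2.symm

theorem VV_scale {cut L : ℝ} (alpha : ℝ) (P : Polarization L) (hc : 0 < cut)
    (y : Mode cut L → ℝ) (x : X3) (j : Fin 3) :
    VV alpha P y x j = cut * (msys alpha P).fld y (cut • x) j := by
  show Real.sqrt alpha * ∑ i, y i * (am i * Real.cos (dot (kk i) x - tt i) * P.e i.1 i.2 j) =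
    cut * ∑ i, y i * (Real.sqrt alpha * am i / cut *
      Real.cos (dot (fun j => kk i j / cut) (cut • x) - tt i) * P.e i.1 i.2 j)
  rw [Finset.mul_sum, Finset.mul_sum]
  refine Finset.sum_congr rfl fun i _ => ?_
  have h1 : dot (fun j => kk i j / cut) (cut • x) = dot (kk i) x := by
    unfold dot
    refine Finset.sum_congr rfl fun j _ => ?_
    rw [Pi.smul_apply, smul_eq_mul]
    field_simp
  rw [h1]
  field_simp

theorem dop_scale {c : ℝ} {f : X3 → S2} (V V' : X3 → X3)
    (hV : ∀ x j, V x j = c * V' (c • x) j) (x : X3) :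
    dop V (fun x => f (c • x)) x = (c : ℂ) • dop V' f (c • x) := by
  unfold dop
  rw [Finset.smul_sum]
  refine Finset.sum_congr rfl fun j _ => ?_
  rw [← map_smul]
  congr 1
  funext s
  show -I * fderiv ℝ (fun y => f (c • y) s) x (Pi.single j 1) + (V x j : ℂ) * f (c • x) s =
    (c : ℂ) * (-I * fderiv ℝ (fun y => f y s) (c • x) (Pi.single j 1) +
      (V' (c • x) j : ℂ) * f (c • x) s)
  have h1 : fderiv ℝ (fun y => f (c • y) s) x = c • fderiv ℝ (fun y => f y s) (c • x) :=
    fderiv_comp_smul (f := fun y => f y s) c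
  rw [h1, hV]
  show -I * ((c : ℝ) • fderiv ℝ (fun y => f y s) (c • x) (Pi.single j 1)) +
    ((c * V' (c • x) j : ℝ) : ℂ) * f (c • x) s = _
  rw [Complex.real_smul]
  push_cast
  ring

/-- **SCA** -/
theorem sca (tcd : TcdStmt) : ScaStmt := by
  intro cut L alpha P hcut hL halpha psi e hT
  obtain ⟨-, -, -, -, hsc, -, -, -⟩ := tcd _ psi hT
  refine ⟨hsc cut hcut.ne', II_scale (fun y x => nsq (psi y x)) hcut, ?_, ?_⟩
  · have h1 : ∀ (y : Mode cut L → ℝ) (x : X3),
        nsq (dop (VV alpha P fun i => y i + e i) (fun x => psi y (cut • x)) x) =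
          cut ^ 2 * nsq (dop ((msys alpha P).fld fun i => y i + e i) (psi y) (cut • x)) := by
      intro y x
      rw [dop_scale (VV alpha P fun i => y i + e i) ((msys alpha P).fld fun i => y i + e i)
        (fun x j => VV_scale alpha P hcut _ x j), nsq_c, Complex.norm_real, Real.norm_eq_abs,
        sq_abs]
    have h2 := II_scale (fun y x => cut ^ 2 *
      nsq (dop ((msys alpha P).fld fun i => y i + e i) (psi y) x)) hcut
    have h3 : II (fun y x => nsq (dop (VV alpha P fun i => y i + e i)
        (fun x => psi y (cut • x)) x)) = II (fun y x => cut ^ 2 *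
          nsq (dop ((msys alpha P).fld fun i => y i + e i) (psi y) (cut • x))) := by
      congr 1
      funext y x
      exact h1 y x
    rw [h3, h2]
    unfold II
    rw [integral_const_mul]
    ring
  · have h2 := II_scale (fun y x => cut * ∑ i, (msys alpha P).w i * nsq (dY2 i psi y x)) hcut
    have h3 : II (fun y x => ∑ i, om i * nsq (dY2 i (fun y x => psi y (cut • x)) y x)) =
        II (fun y x => cut * ∑ i, (msys alpha P).w i * nsq (dY2 i psi y (cut • x))) := by
      congr 1
      funext y x
      rw [Finset.mul_sum]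
      refine Finset.sum_congr rfl fun i _ => ?_
      show om i * nsq (dY2 i psi y (cut • x)) = cut * (om i / cut * nsq (dY2 i psi y (cut • x)))
      field_simp
    rw [h3, h2]
    unfold II
    rw [integral_const_mul]
    ring

end Pool.Agent.FTU.H2
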