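import Pool.Agent.FTU.Stmts
import Pool.Agent.Helper28_MBX.NFI
import Pool.Agent.Helper61_Pauli.GaussChange

/-!
# Row SHF of squad FTU (MP_8cfbae_mp): the energy of a displaced trial function
-/

set_option autoImplicit false

open MeasureTheory Complex ProbabilityTheory

namespace Pool.Agent.FTU.H2

open Pool.Agent.Helper49_Pauli
open Pool.Agent.Helper61_Pauli
open Pool.Agent.MBX
open Pool.Agent.Loc (γn PB)

section shift

variable {ι : Type} [Fintype ι]

theorem gz_cont (e : ι → ℝ) : Continuous (gz e) := by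
  unfold gz
  fun_prop

theorem gd_shift (e y : ι → ℝ) : gd y * gz e y ^ 2 = gd (fun i => y i - e i) := by
  unfold gd gz
  rw [← Real.exp_nat_mul, mul_assoc, ← Real.exp_add]
  congr 2
  have h1 : ∑ i, (y i - e i) ^ 2 = ∑ i, y i ^ 2 - 2 * ∑ i, y i * e i + ∑ i, e i ^ 2 := by
    rw [Finset.mul_sum, ← Finset.sum_sub_distrib, ← Finset.sum_add_distrib]
    refine Finset.sum_congr rfl fun i _ => ?_
    ring
  rw [h1]
  push_cast
  ring

/-- the displaced Gaussian measure -/
theorem map_shift (e : ι → ℝ) :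
    Measure.map (fun (y : ι → ℝ) (i : ι) => y i + e i) (γn ι) =
      (γn ι).withDensity (fun y => ENNReal.ofReal (gz e y ^ 2)) := by
  have hm : Measurable (fun (y : ι → ℝ) (i : ι) => y i + e i) := by fun_prop
  have hz : Measurable (fun y : ι → ℝ => ENNReal.ofReal (gz e y ^ 2)) :=
    ((gz_cont e).pow 2).measurable.ennreal_ofReal
  have hgd : Measurable (fun y : ι → ℝ => ENNReal.ofReal (gd y)) := measurable_gd.ennreal_ofReal
  refine Measure.ext_of_lintegral _ fun f hf => ?_
  rw [lintegral_map hf hm, lintegral_withDensity_eq_lintegral_mul _ hz hf]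
  show ∫⁻ y, f (fun i => y i + e i) ∂(Measure.pi fun _ : ι => gaussianReal 0 1) =
    ∫⁻ y, ENNReal.ofReal (gz e y ^ 2) * f y ∂(Measure.pi fun _ : ι => gaussianReal 0 1)
  have hA := lintegral_withDensity_eq_lintegral_mul (volume : Measure (ι → ℝ)) hgd
    (hf.comp hm)
  have hB := lintegral_withDensity_eq_lintegral_mul (volume : Measure (ι → ℝ)) hgd
    (hz.mul hf)
  rw [pi_gauss]
  refine Eq.trans hA (Eq.trans ?_ hB.symm)
  have h1 := lintegral_add_right_eq_self (μ := (volume : Measure (ι → ℝ)))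
    (fun y => ENNReal.ofReal (gd fun i => y i - e i) * f y) e
  have h2 : (fun y : ι → ℝ => ENNReal.ofReal (gd fun i => (y + e) i - e i) * f (y + e)) =
      fun y => ENNReal.ofReal (gd y) * f (fun i => y i + e i) := by
    funext y
    have e1 : (fun i => (y + e) i - e i) = y := by
      funext i
      rw [Pi.add_apply, add_sub_cancel_right]
    rw [e1]
    rfl
  rw [h2] at h1
  refine Eq.trans h1 ?_
  refine lintegral_congr fun y => ?_
  show ENNReal.ofReal (gd fun i => y i - e i) * f y =
    ENNReal.ofReal (gd y) * (ENNReal.ofReal (gz e y ^ 2) * f y)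
  rw [← gd_shift, ENNReal.ofReal_mul (gd_nonneg y), mul_assoc]

/-- the shift of the Gaussian -/
theorem shift {F : (ι → ℝ) → X3 → ℝ}
    (hF : Integrable (fun z : (ι → ℝ) × X3 => F z.1 z.2) ((γn ι).prod volume)) (e : ι → ℝ) :
    Integrable (fun z : (ι → ℝ) × X3 => gz e z.1 ^ 2 * F (fun i => z.1 i - e i) z.2)
      ((γn ι).prod volume) ∧
    II (fun y x => gz e y ^ 2 * F (fun i => y i - e i) x) = II F := by
  have hm : Measurable (fun (y : ι → ℝ) (i : ι) => y i + e i) := by fun_prop
  have hz : Measurable (fun y : ι → ℝ => ENNReal.ofReal (gz e y ^ 2)) :=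
    ((gz_cont e).pow 2).measurable.ennreal_ofReal
  have hz2 : Measurable (fun z : (ι → ℝ) × X3 => ENNReal.ofReal (gz e z.1 ^ 2)) :=
    hz.comp measurable_fst
  have hms : Measurable (fun (y : ι → ℝ) (i : ι) => y i - e i) := by fun_prop
  have hmp : MeasurePreserving (fun (y : ι → ℝ) (i : ι) => y i - e i)
      ((γn ι).withDensity (fun y => ENNReal.ofReal (gz e y ^ 2))) (γn ι) := by
    refine ⟨hms, ?_⟩
    rw [← map_shift e, Measure.map_map hms hm]
    have e1 : (fun (y : ι → ℝ) (i : ι) => y i - e i) ∘ (fun (y : ι → ℝ) (i : ι) => y i + e i) =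
        id := by
      funext y i
      show y i + e i - e i = y i
      ring
    rw [e1, Measure.map_id]
  have hmp2 := hmp.prod (MeasurePreserving.id (volume : Measure X3))
  have hpd := prod_withDensity_left (μ := γn ι) (ν := (volume : Measure X3)) hz
  rw [hpd] at hmp2
  have hlt : ∀ᵐ z : (ι → ℝ) × X3 ∂((γn ι).prod volume),
      ENNReal.ofReal (gz e z.1 ^ 2) < ⊤ := Filter.Eventually.of_forall fun z =>
    ENNReal.ofReal_lt_top
  have hre : ∀ z : (ι → ℝ) × X3, (ENNReal.ofReal (gz e z.1 ^ 2)).toReal = gz e z.1 ^ 2 :=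
    fun z => ENNReal.toReal_ofReal (sq_nonneg _)
  constructor
  · have h1 := hmp2.integrable_comp_of_integrable hF
    rw [integrable_withDensity_iff_integrable_smul' hz2 hlt] at h1
    refine h1.congr (Filter.Eventually.of_forall fun z => ?_)
    show (ENNReal.ofReal (gz e z.1 ^ 2)).toReal • F (fun i => z.1 i - e i) z.2 =
      gz e z.1 ^ 2 * F (fun i => z.1 i - e i) z.2
    rw [hre, smul_eq_mul]
  · have hF2 : AEStronglyMeasurable (fun z : (ι → ℝ) × X3 => F z.1 z.2)
        (Measure.map (Prod.map (fun (y : ι → ℝ) (i : ι) => y i - e i) (id : X3 → X3))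
          (((γn ι).prod volume).withDensity fun z => ENNReal.ofReal (gz e z.1 ^ 2))) := by
      rw [hmp2.map_eq]
      exact hF.aestronglyMeasurable
    have h1 := integral_map hmp2.measurable.aemeasurable hF2
    rw [hmp2.map_eq, integral_withDensity_eq_integral_toReal_smul hz2 hlt] at h1
    unfold II
    rw [h1]
    refine integral_congr_ae (Filter.Eventually.of_forall fun z => ?_)
    show gz e z.1 ^ 2 * F (fun i => z.1 i - e i) z.2 =
      (ENNReal.ofReal (gz e z.1 ^ 2)).toReal • F (fun i => z.1 i - e i) z.2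
    rw [hre, smul_eq_mul]

end shift

section pointwise

variable {ι : Type} [Fintype ι] [DecidableEq ι]

theorem gz_pos (e y : ι → ℝ) : 0 < gz e y := Real.exp_pos _

theorem nsq_c (c : ℂ) (v : S2) : nsq (c • v) = ‖c‖ ^ 2 * nsq v := by
  unfold nsq
  rw [Finset.mul_sum]
  refine Finset.sum_congr rfl fun s _ => ?_
  rw [Pi.smul_apply, norm_smul, mul_pow]

theorem nsq_gz (e y : ι → ℝ) (v : S2) : nsq ((gz e y : ℂ) • v) = gz e y ^ 2 * nsq v := by
  rw [nsq_c, Complex.norm_real, Real.norm_eq_abs, sq_abs]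

theorem nsq_add_le (a b : S2) : nsq (a + b) ≤ 2 * nsq a + 2 * nsq b := by
  unfold nsq
  rw [Finset.mul_sum, Finset.mul_sum, ← Finset.sum_add_distrib]
  refine Finset.sum_le_sum fun s _ => ?_
  rw [Pi.add_apply]
  have h1 := norm_add_le (a s) (b s)
  have h2 := pow_le_pow_left₀ (norm_nonneg _) h1 2
  nlinarith [sq_nonneg (‖a s‖ - ‖b s‖)]

theorem dop_smul {f : X3 → S2} (hf : ∀ s, Differentiable ℝ fun x => f x s) (V : X3 → X3) (c : ℂ)
    (x : X3) : dop V (fun x => c • f x) x = c • dop V f x := by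
  unfold dop
  rw [Finset.smul_sum]
  refine Finset.sum_congr rfl fun j _ => ?_
  rw [← map_smul]
  congr 1
  funext s
  show -I * fderiv ℝ (fun y => c • f y s) x (Pi.single j 1) + (V x j : ℂ) * (c • f x s) =
    c • (-I * fderiv ℝ (fun y => f y s) x (Pi.single j 1) + (V x j : ℂ) * f x s)
  rw [fderiv_fun_const_smul (hf s x)]
  show -I * (c • fderiv ℝ (fun y => f y s) x (Pi.single j 1)) + (V x j : ℂ) * (c • f x s) = _
  simp only [smul_eq_mul]
  ring

/-- the derivative of the density -/
theorem gz_deriv (e y : ι → ℝ) (i : ι) :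
    HasDerivAt (fun t : ℝ => gz e (Function.update y i t)) (gz e y * (e i / 2)) (y i) := by
  have h1 : ∀ t : ℝ, gz e (Function.update y i t) =
      Real.exp (((∑ j, y j * e j) + (t - y i) * e i) / 2 - (∑ j, e j ^ 2) / 4) := by
    intro t
    unfold gz
    congr 3
    have h2 : ∀ j, Function.update y i t j * e j =
        y j * e j + if j = i then (t - y i) * e i else 0 := by
      intro j
      by_cases h : j = i
      · subst h
        rw [Function.update_self, if_pos rfl]
        ring
      · rw [Function.update_of_ne h, if_neg h, add_zero]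
    rw [Finset.sum_congr rfl fun j _ => h2 j, Finset.sum_add_distrib, Finset.sum_ite_eq',
      if_pos (Finset.mem_univ i)]
  have h3 : HasDerivAt (fun t : ℝ => ((∑ j, y j * e j) + (t - y i) * e i) / 2 -
      (∑ j, e j ^ 2) / 4) (e i / 2) (y i) := by
    have h4 := ((((hasDerivAt_id (y i)).sub_const (y i)).mul_const (e i)).const_add
      (∑ j, y j * e j)).div_const 2
    have h5 := h4.sub_const ((∑ j, e j ^ 2) / 4)
    simpa using h5
  have h6 := h3.exp
  have h7 : (fun t : ℝ => gz e (Function.update y i t)) = fun t =>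
      Real.exp (((∑ j, y j * e j) + (t - y i) * e i) / 2 - (∑ j, e j ^ 2) / 4) := funext h1
  rw [h7]
  have h8 : gz e y = Real.exp (((∑ j, y j * e j) + (y i - y i) * e i) / 2 -
      (∑ j, e j ^ 2) / 4) := by
    rw [← h1 (y i), Function.update_eq_self]
  rw [h8]
  exact h6

theorem dY2_dsp {psi : (ι → ℝ) → X3 → S2} {i : ι}
    (hd : ∀ y x s, HasDerivAt (fun t : ℝ => psi (Function.update y i t) x s)
      (dY2 i psi y x s) (y i)) (e y : ι → ℝ) (x : X3) :
    dY2 i (dsp e psi) y x = (gz e y : ℂ) • (dY2 i psi (fun i => y i - e i) x +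
      ((e i / 2 : ℝ) : ℂ) • psi (fun i => y i - e i) x) := by
  funext s
  show deriv (fun t : ℝ => (gz e (Function.update y i t) : ℂ) *
    psi (fun j => Function.update y i t j - e j) x s) (y i) = _
  have h1 : ∀ t : ℝ, (fun j => Function.update y i t j - e j) =
      Function.update (fun j => y j - e j) i (t - e i) := by
    intro t
    funext j
    by_cases h : j = i
    · subst h
      rw [Function.update_self, Function.update_self]
    · rw [Function.update_of_ne h, Function.update_of_ne h]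
  simp only [h1]
  have h2 := hd (fun j => y j - e j) x s
  have h3 : HasDerivAt (fun t : ℝ => psi (Function.update (fun j => y j - e j) i (t - e i)) x s)
      (dY2 i psi (fun j => y j - e j) x s) (y i) := HasDerivAt.comp_sub_const (y i) (e i) h2
  have h4 := (gz_deriv e y i).ofReal_comp
  have h5 := (h4.mul h3).deriv
  refine Eq.trans h5 ?_
  have h6 : Function.update (fun j => y j - e j) i (y i - e i) = fun j => y j - e j :=
    Function.update_eq_self i (fun j => y j - e j)
  rw [h6, Function.update_eq_self]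
  show _ = (gz e y : ℂ) * (dY2 i psi (fun i => y i - e i) x s +
    ((e i / 2 : ℝ) : ℂ) * psi (fun i => y i - e i) x s)
  push_cast
  ring

end pointwise

/-- the field of the modes of the box as a system -/
noncomputable def bsys {cut L : ℝ} (alpha : ℝ) (P : Polarization L) : Sys (Mode cut L) where
  k := kk
  e := fun i => P.e i.1 i.2
  t := tt
  c := fun i => Real.sqrt alpha * am i
  w := om

theorem bsys_fld {cut L : ℝ} (alpha : ℝ) (P : Polarization L) (y : Mode cut L → ℝ) :
    (bsys alpha P).fld y = VV alpha P y := by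
  funext x j
  show ∑ i, y i * (Real.sqrt alpha * am i * Real.cos (dot (kk i) x - tt i) * P.e i.1 i.2 j) =
    Real.sqrt alpha * ∑ i, y i * (am i * Real.cos (dot (kk i) x - tt i) * P.e i.1 i.2 j)
  rw [Finset.mul_sum]
  refine Finset.sum_congr rfl fun i _ => ?_
  ring

theorem om_nonneg {cut L : ℝ} (i : Mode cut L) : 0 ≤ om i := Real.sqrt_nonneg _

theorem cont_nsq {ι : Type} {f : (ι → ℝ) × X3 → S2} (hf : Continuous f) :
    Continuous fun z => nsq (f z) := by
  unfold nsq
  exact continuous_finset_sum _ fun s _ => (((continuous_apply s).comp hf).norm).pow 2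

/-- **SHF** -/
theorem shf (tcd : TcdStmt) (nft : NftStmt) : ShfStmt := by
  intro cut L alpha P psi e hT
  obtain ⟨hcs, -, hdy, -, -, -, hcont, -⟩ := tcd _ psi hT
  obtain ⟨n1, n2, n3⟩ := nft _ psi hT
  have i1 := Pool.Agent.MBX.H28.nfi _ _ n1
  have i2 := Pool.Agent.MBX.H28.nfi _ _ (n2 (bsys alpha P) e)
  have i3 := Pool.Agent.MBX.H28.nfi _ _ (n3 om)
  simp only [bsys_fld] at i2
  -- the three densities
  have e1 : ∀ (y : Mode cut L → ℝ) (x : X3),
      nsq (dsp e psi y x) = gz e y ^ 2 * nsq (psi (fun i => y i - e i) x) := fun y x =>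
    nsq_gz e y _
  have e2 : ∀ (y : Mode cut L → ℝ) (x : X3), nsq (dop (VV alpha P y) (dsp e psi y) x) =
      gz e y ^ 2 * nsq (dop (VV alpha P fun i => (fun i => y i - e i) i + e i)
        (psi (fun i => y i - e i)) x) := by
    intro y x
    have h1 : (fun i => (fun i => y i - e i) i + e i) = y := by
      funext i
      show y i - e i + e i = y i
      ring
    rw [h1]
    have h2 : dop (VV alpha P y) (dsp e psi y) x =
        (gz e y : ℂ) • dop (VV alpha P y) (psi fun i => y i - e i) x :=
      dop_smul (fun s => ((hcs (fun i => y i - e i) s).1.differentiable (by norm_num))) _ _ _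
    rw [h2, nsq_gz]
  have e3 : ∀ (y : Mode cut L → ℝ) (x : X3), ∑ i, om i * nsq (dY2 i (dsp e psi) y x) =
      gz e y ^ 2 * ∑ i, om i * nsq (dY2 i psi (fun i => y i - e i) x +
        ((e i / 2 : ℝ) : ℂ) • psi (fun i => y i - e i) x) := by
    intro y x
    rw [Finset.mul_sum]
    refine Finset.sum_congr rfl fun i _ => ?_
    rw [dY2_dsp (hdy i).2, nsq_gz]
    ring
  -- the bound for the third one
  have hb : ∀ (y : Mode cut L → ℝ) (x : X3),
      ∑ i, om i * nsq (dY2 i psi y x + ((e i / 2 : ℝ) : ℂ) • psi y x) ≤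
        2 * ∑ i, om i * nsq (dY2 i psi y x) + (∑ i, om i * e i ^ 2) / 2 * nsq (psi y x) := by
    intro y x
    rw [Finset.mul_sum, Finset.sum_div, Finset.sum_mul, ← Finset.sum_add_distrib]
    refine Finset.sum_le_sum fun i _ => ?_
    have h1 := nsq_add_le (dY2 i psi y x) (((e i / 2 : ℝ) : ℂ) • psi y x)
    rw [nsq_c, Complex.norm_real, Real.norm_eq_abs, sq_abs] at h1
    have h2 := mul_le_mul_of_nonneg_left h1 (om_nonneg i)
    refine h2.trans (le_of_eq ?_)
    ring
  have hnn : ∀ (y : Mode cut L → ℝ) (x : X3),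
      0 ≤ ∑ i, om i * nsq (dY2 i psi y x + ((e i / 2 : ℝ) : ℂ) • psi y x) := fun y x =>
    Finset.sum_nonneg fun i _ => mul_nonneg (om_nonneg i) (nsq_nonneg _)
  have hc3 : Continuous fun z : (Mode cut L → ℝ) × X3 =>
      ∑ i, om i * nsq (dY2 i psi z.1 z.2 + ((e i / 2 : ℝ) : ℂ) • psi z.1 z.2) := by
    refine continuous_finset_sum _ fun i _ => continuous_const.mul (cont_nsq ?_)
    obtain ⟨-, -, -, -, -, -, hci, -⟩ := tcd _ _ (hdy i).1
    have hcs2 : Continuous fun z : (Mode cut L → ℝ) × X3 => ((e i / 2 : ℝ) : ℂ) • psi z.1 z.2 :=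
      hcont.const_smul ((e i / 2 : ℝ) : ℂ)
    exact hci.add hcs2
  have iG := (i3.const_mul 2).add (i1.const_mul ((∑ i : Mode cut L, om i * e i ^ 2) / 2))
  have i4 : Integrable (fun z : (Mode cut L → ℝ) × X3 =>
      ∑ i, om i * nsq (dY2 i psi z.1 z.2 + ((e i / 2 : ℝ) : ℂ) • psi z.1 z.2))
        ((γn (Mode cut L)).prod volume) := by
    refine iG.mono' hc3.aestronglyMeasurable (Filter.Eventually.of_forall fun z => ?_)
    rw [Real.norm_eq_abs, abs_of_nonneg (hnn z.1 z.2)]
    exact hb z.1 z.2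
  obtain ⟨s1, t1⟩ := shift (F := fun y x => nsq (psi y x)) i1 e
  obtain ⟨s2, t2⟩ := shift
    (F := fun y x => nsq (dop (VV alpha P fun i => y i + e i) (psi y) x)) i2 e
  obtain ⟨s4, t4⟩ := shift (F := fun y x =>
    ∑ i, om i * nsq (dY2 i psi y x + ((e i / 2 : ℝ) : ℂ) • psi y x)) i4 e
  refine ⟨?_, ?_, ?_, ?_, ?_, ?_⟩
  · refine s1.congr (Filter.Eventually.of_forall fun z => ?_)
    exact (e1 z.1 z.2).symm
  · refine s2.congr (Filter.Eventually.of_forall fun z => ?_)
    exact (e2 z.1 z.2).symm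
  · refine s4.congr (Filter.Eventually.of_forall fun z => ?_)
    exact (e3 z.1 z.2).symm
  · rw [← t1]
    congr 1
    funext y x
    exact e1 y x
  · rw [← t2]
    congr 1
    funext y x
    exact e2 y x
  · have h1 : II (fun y x => ∑ i, om i * nsq (dY2 i (dsp e psi) y x)) =
        II (fun y x => ∑ i, om i * nsq (dY2 i psi y x + ((e i / 2 : ℝ) : ℂ) • psi y x)) := by
      rw [← t4]
      congr 1
      funext y x
      exact e3 y x
    rw [h1]
    unfold II
    rw [← integral_const_mul, ← integral_const_mul, ← integral_add (i3.const_mul 2)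
      (i1.const_mul _)]
    exact integral_mono i4 iG fun z => hb z.1 z.2

end Pool.Agent.FTU.H2
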